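import Mathlib

/-!
# The radius of convergence of `q`-deformed real numbers

For every real number `x` the `q`-deformed real number `[x]_q` has radius of convergence at least
`R_* = (3 - √5)/2`.

Idea of the proof. Put `g = (√5 - 1)/2`, so that `R_* (1 + g) = g` and `g (1 + g) = 1`. For
`|z| ≤ R_*` the affine map `w ↦ 1 + z w` sends the disc `|w| ≤ 1 + g` into the disc
`|w - 1| ≤ g`, which is contained in the former. If `|w - 1| ≤ g` then `|1 - 1/w| ≤ 1 + g`, and
`[c]_z - z^(c-1)/w` is the image of `1 - 1/w` under the `(c-1)`-st iterate (`c ≥ 2`) of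
`w ↦ 1 + z w`. So all truncations take values in `|w - 1| ≤ g`, Cauchy's estimates bound their
Taylor coefficients uniformly, and the bounds pass to the `q`-adic limit.
-/

open Filter Topology PowerSeries

namespace Pool.Agent.Results.MP_b13893_an.RadiusBound

/-- The complete quotients of the negative continued fraction of `x`:
`x_0 = x` and `x_{j+1} = 1 / (⌊x_j⌋ + 1 - x_j)`, so that `x_j = (⌊x_j⌋ + 1) - 1 / x_{j+1}`. -/
noncomputable def completeQuot (x : ℝ) : ℕ → ℝ
  | 0 => x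
  | j + 1 => 1 / ((⌊completeQuot x j⌋ : ℝ) + 1 - completeQuot x j)

/-- The digits of the negative continued fraction of `x`: `c_j = ⌊x_j⌋ + 1`
(for `x ≥ 1` all of them are at least `2`). -/
noncomputable def digit (x : ℝ) (j : ℕ) : ℤ := ⌊completeQuot x j⌋ + 1

/-- The variable `q` in the field of formal Laurent series. -/
noncomputable def q : LaurentSeries ℂ := HahnSeries.single 1 1

/-- `[n]_q = (1 - q^n) / (1 - q)` for an integer `n`, as a Laurent series. -/
noncomputable def qInt (n : ℤ) : LaurentSeries ℂ := (1 - q ^ n) / (1 - q)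

/-- The `q`-deformed truncation `[[c_1, …, c_N]]_q`, a rational function of `q`, viewed in the
field of Laurent series:
`[[c]]_q = [c]_q` and `[[c_1, c_2, …, c_N]]_q = [c_1]_q - q^(c_1 - 1) / [[c_2, …, c_N]]_q`. -/
noncomputable def qTrunc : List ℤ → LaurentSeries ℂ
  | [] => 0
  | [c] => qInt c
  | c :: d :: l => qInt c - q ^ (c - 1) / qTrunc (d :: l)

/-- `f` is the `q`-adic limit of the truncations `[[c_0, …, c_{N-1}]]_q`: every coefficient of
the truncations is eventually equal to the corresponding coefficient of `f`. -/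
def IsQLimit (c : ℕ → ℤ) (f : LaurentSeries ℂ) : Prop :=
  ∀ k : ℤ, ∀ᶠ N : ℕ in atTop, (qTrunc ((List.range N).map c)).coeff k = f.coeff k

/-- `f` is the `q`-deformed real number `[x]_q`: for some natural number `m` with `x + m ≥ 1`,
the series `[x + m]_q`, defined as the limit of the `q`-deformed truncations of the negative
continued fraction of `x + m`, equals `q^m f + [m]_q`, that is `f = q^(-m) ([x + m]_q - [m]_q)`. -/
def IsQReal (x : ℝ) (f : LaurentSeries ℂ) : Prop :=
  ∃ m : ℕ, 1 ≤ x + m ∧ IsQLimit (digit (x + m)) (q ^ m * f + qInt m)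

/-- The radius of convergence of (the part with nonnegative powers of) a Laurent series. -/
noncomputable def radius (f : LaurentSeries ℂ) : ENNReal :=
  (FormalMultilinearSeries.ofScalars ℂ (fun k : ℕ => f.coeff (k : ℤ))).radius

/-! ### Basic facts on the definitions -/

lemma qTrunc_cons (c : ℤ) (l : List ℤ) :
    qTrunc (c :: l) = qInt c - q ^ (c - 1) / qTrunc l := by
  cases l with
  | nil => simp [qTrunc]
  | cons d l => rw [qTrunc]

lemma q_ne_zero : q ≠ 0 := by
  unfold q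
  simp

lemma one_sub_q_ne_zero : (1 : LaurentSeries ℂ) - q ≠ 0 := by
  intro h
  have h2 : (1 : LaurentSeries ℂ) = q := sub_eq_zero.mp h
  have h3 := congrArg (fun f : LaurentSeries ℂ => f.coeff 0) h2
  simp [q, HahnSeries.coeff_one] at h3

lemma qInt_succ (n : ℤ) : qInt (n + 1) = q * qInt n + 1 := by
  unfold qInt
  have h := one_sub_q_ne_zero
  field_simp
  rw [zpow_add_one₀ q_ne_zero]
  ring

lemma qInt_zero : qInt 0 = 0 := by simp [qInt]

lemma qTrunc_succ (c : ℤ) (l : List ℤ) : qTrunc ((c + 1) :: l) = q * qTrunc (c :: l) + 1 := by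
  rw [qTrunc_cons, qTrunc_cons, qInt_succ]
  have h : q ^ (c + 1 - 1) = q * q ^ (c - 1) := by
    have e : c + 1 - 1 = (c - 1) + 1 := by ring
    rw [e, zpow_add_one₀ q_ne_zero, mul_comm]
  rw [h]
  ring

lemma completeQuot_add_one (x : ℝ) (j : ℕ) :
    completeQuot (x + 1) (j + 1) = completeQuot x (j + 1) := by
  induction j with
  | zero =>
    simp only [completeQuot]
    rw [Int.floor_add_one]
    push_cast
    congr 1
    ring
  | succ j ih =>
    rw [completeQuot, ih]
    rfl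

lemma digit_add_one_zero (x : ℝ) : digit (x + 1) 0 = digit x 0 + 1 := by
  simp [digit, completeQuot]

lemma digit_add_one_succ (x : ℝ) (j : ℕ) : digit (x + 1) (j + 1) = digit x (j + 1) := by
  simp only [digit, completeQuot_add_one]

lemma completeQuot_ge_one {x : ℝ} (hx : 1 ≤ x) (j : ℕ) : 1 ≤ completeQuot x j := by
  cases j with
  | zero => exact hx
  | succ j =>
    rw [completeQuot]
    have h1 := Int.lt_floor_add_one (completeQuot x j)
    have h2 := Int.floor_le (completeQuot x j)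
    rw [le_div_iff₀ (by linarith)]
    linarith

lemma digit_ge_two {x : ℝ} (hx : 1 ≤ x) (j : ℕ) : 2 ≤ digit x j := by
  have h := completeQuot_ge_one hx j
  have h2 : (1 : ℤ) ≤ ⌊completeQuot x j⌋ := Int.le_floor.mpr (by simpa using h)
  unfold digit
  omega

lemma digit_map_add_one (x : ℝ) (N : ℕ) :
    qTrunc ((List.range (N + 1)).map (digit (x + 1))) =
      q * qTrunc ((List.range (N + 1)).map (digit x)) + 1 := by
  rw [List.range_succ_eq_map, List.map_cons, List.map_cons, digit_add_one_zero, qTrunc_succ]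
  congr 4
  rw [List.map_map, List.map_map]
  apply List.map_congr_left
  intro a _
  exact digit_add_one_succ x a

lemma coeff_q_mul (f : LaurentSeries ℂ) (k : ℤ) : (q * f).coeff k = f.coeff (k - 1) := by
  have h := HahnSeries.coeff_single_mul_add (Γ := ℤ) (r := (1 : ℂ)) (x := f) (a := k - 1) (b := 1)
  rw [sub_add_cancel, one_mul] at h
  exact h

lemma coeff_q_pow_mul (f : LaurentSeries ℂ) (m : ℕ) (k : ℤ) :
    (q ^ m * f).coeff k = f.coeff (k - m) := by
  induction m generalizing k with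
  | zero => simp
  | succ m ih =>
    rw [pow_succ', mul_assoc, coeff_q_mul, ih]
    congr 1
    push_cast
    ring

lemma isQLimit_unique {c : ℕ → ℤ} {f g : LaurentSeries ℂ} (hf : IsQLimit c f)
    (hg : IsQLimit c g) : f = g := by
  ext k
  obtain ⟨N, hN⟩ := ((hf k).and (hg k)).exists
  rw [← hN.1, ← hN.2]

lemma isQLimit_succ {x : ℝ} {g : LaurentSeries ℂ} (h : IsQLimit (digit x) g) :
    IsQLimit (digit (x + 1)) (q * g + 1) := by
  intro k
  have h1 := h (k - 1)
  obtain ⟨N0, hN0⟩ := eventually_atTop.mp h1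
  refine eventually_atTop.mpr ⟨N0 + 1, fun N hN => ?_⟩
  obtain ⟨M, rfl⟩ : ∃ M, N = M + 1 := ⟨N - 1, by omega⟩
  rw [digit_map_add_one, HahnSeries.coeff_add, HahnSeries.coeff_add, coeff_q_mul, coeff_q_mul,
    hN0 (M + 1) (by omega)]

lemma isQLimit_add {x : ℝ} {f : LaurentSeries ℂ} {m : ℕ}
    (h : IsQLimit (digit (x + m)) (q ^ m * f + qInt m)) (n : ℕ) :
    IsQLimit (digit (x + (m + n : ℕ))) (q ^ (m + n) * f + qInt (m + n : ℕ)) := by
  induction n with
  | zero => simpa using h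
  | succ n ih =>
    have h2 := isQLimit_succ ih
    have e1 : x + (m + (n + 1) : ℕ) = x + (m + n : ℕ) + 1 := by push_cast; ring
    have e2 : ((m + (n + 1) : ℕ) : ℤ) = ((m + n : ℕ) : ℤ) + 1 := by push_cast; ring
    have e3 : q * (q ^ (m + n) * f + qInt (m + n : ℕ)) + 1 =
        q ^ (m + (n + 1)) * f + qInt (m + (n + 1) : ℕ) := by
      rw [e2, qInt_succ, ← add_assoc m n 1, pow_succ']
      ring
    rw [e1, ← e3]
    exact h2

lemma isQReal_unique {x : ℝ} {f g : LaurentSeries ℂ} (hf : IsQReal x f) (hg : IsQReal x g) :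
    f = g := by
  obtain ⟨m, hm, hf⟩ := hf
  obtain ⟨n, hn, hg⟩ := hg
  have h1 := isQLimit_add hf n
  have h2 := isQLimit_add hg m
  rw [add_comm n m] at h2
  have h3 := isQLimit_unique h1 h2
  have h4 : q ^ (m + n) * f = q ^ (m + n) * g := by
    have := h3
    simpa using this
  exact mul_left_cancel₀ (pow_ne_zero _ q_ne_zero) h4


/-! ### The power series model -/

/-- The polynomial `1 + X + ⋯ + X^(c-1)`. -/
noncomputable def geom (c : ℕ) : ℂ⟦X⟧ := ∑ i ∈ Finset.range c, (X : ℂ⟦X⟧) ^ i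

/-- Power series version of `qTrunc` (for digits at least `2`). -/
noncomputable def pT : List ℤ → ℂ⟦X⟧
  | [] => 0
  | c :: l => geom c.toNat - (X : ℂ⟦X⟧) ^ (c - 1).toNat * (pT l)⁻¹

lemma constantCoeff_geom {c : ℕ} (hc : 1 ≤ c) : constantCoeff (geom c) = 1 := by
  obtain ⟨d, rfl⟩ : ∃ d, c = d + 1 := ⟨c - 1, by omega⟩
  unfold geom
  rw [map_sum, Finset.sum_range_succ']
  simp

lemma constantCoeff_pT_cons {c : ℤ} (hc : 2 ≤ c) (l : List ℤ) :
    constantCoeff (pT (c :: l)) = 1 := by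
  have h1 : (c - 1).toNat ≠ 0 := by omega
  rw [pT, map_sub, constantCoeff_geom (by omega), map_mul, map_pow, constantCoeff_X,
    zero_pow h1, zero_mul, sub_zero]

lemma coe_X_eq : ((X : ℂ⟦X⟧) : LaurentSeries ℂ) = q := by
  unfold q
  exact PowerSeries.coe_X

lemma coe_geom (c : ℕ) : ((geom c : ℂ⟦X⟧) : LaurentSeries ℂ) = qInt c := by
  have h := one_sub_q_ne_zero
  unfold qInt geom
  rw [eq_div_iff h, map_sum]
  simp only [map_pow, coe_X_eq]
  rw [zpow_natCast]
  exact geom_sum_mul_neg q c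

lemma coe_inv (f : ℂ⟦X⟧) (hf : constantCoeff f ≠ 0 ∨ f = 0) :
    ((f⁻¹ : ℂ⟦X⟧) : LaurentSeries ℂ) = (f : LaurentSeries ℂ)⁻¹ := by
  rcases hf with hf | hf
  · have h := PowerSeries.mul_inv_cancel f hf
    have h2 := congrArg (fun g : ℂ⟦X⟧ => (g : LaurentSeries ℂ)) h
    simp only [map_mul, map_one] at h2
    exact eq_inv_of_mul_eq_one_right h2
  · subst hf
    simp

lemma coe_pT (l : List ℤ) (hl : ∀ c ∈ l, 2 ≤ c) :
    ((pT l : ℂ⟦X⟧) : LaurentSeries ℂ) = qTrunc l := by
  induction l with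
  | nil => simp [pT, qTrunc]
  | cons c l ih =>
    have hc : 2 ≤ c := hl c (by simp)
    have hl' : ∀ d ∈ l, 2 ≤ d := fun d hd => hl d (by simp [hd])
    rw [qTrunc_cons, pT, map_sub, map_mul, coe_geom, map_pow, coe_X_eq, coe_inv, ih hl',
      div_eq_mul_inv]
    · have e1 : ((c.toNat : ℕ) : ℤ) = c := by omega
      have e2 : q ^ (c - 1).toNat = q ^ (c - 1) := by
        rw [← zpow_natCast]
        congr 1
        omega
      rw [e1, e2]
    · cases l with
      | nil => right; rfl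
      | cons d l =>
        left
        rw [constantCoeff_pT_cons (hl' d (by simp))]
        exact one_ne_zero

lemma dvd_pT_sub (p s s' : List ℤ) (hp : ∀ c ∈ p, 2 ≤ c) :
    (X : ℂ⟦X⟧) ^ p.length ∣ pT (p ++ s) - pT (p ++ s') := by
  induction p with
  | nil => simp
  | cons c p ih =>
    have hc : 2 ≤ c := hp c (by simp)
    have hp' : ∀ d ∈ p, 2 ≤ d := fun d hd => hp d (by simp [hd])
    have ih' := ih hp'
    obtain ⟨e, he⟩ : ∃ e, (c - 1).toNat = e + 1 := ⟨(c - 1).toNat - 1, by omega⟩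
    have key : pT (c :: p ++ s) - pT (c :: p ++ s') =
        (X : ℂ⟦X⟧) ^ (e + 1) * ((pT (p ++ s'))⁻¹ - (pT (p ++ s))⁻¹) := by
      rw [List.cons_append, List.cons_append, pT, pT, he]
      ring
    rw [key]
    cases p with
    | nil =>
      rw [List.length_cons, List.length_nil, zero_add, pow_one, pow_succ']
      exact Dvd.dvd.mul_right (Dvd.intro _ rfl) _
    | cons d p =>
      have hd : 2 ≤ d := hp' d (by simp)
      have hu : constantCoeff (pT (d :: p ++ s)) ≠ 0 := by
        rw [List.cons_append, constantCoeff_pT_cons hd]; exact one_ne_zero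
      have hv : constantCoeff (pT (d :: p ++ s')) ≠ 0 := by
        rw [List.cons_append, constantCoeff_pT_cons hd]; exact one_ne_zero
      have e1 := PowerSeries.mul_inv_cancel _ hu
      have e2 := PowerSeries.mul_inv_cancel _ hv
      have key2 : (pT (d :: p ++ s'))⁻¹ - (pT (d :: p ++ s))⁻¹ =
          (pT (d :: p ++ s) - pT (d :: p ++ s')) *
            ((pT (d :: p ++ s))⁻¹ * (pT (d :: p ++ s'))⁻¹) := by
        linear_combination (-(pT (d :: p ++ s'))⁻¹) * e1 + (pT (d :: p ++ s))⁻¹ * e2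
      rw [key2, List.length_cons, pow_succ']
      refine mul_dvd_mul ?_ (Dvd.dvd.mul_right ih' _)
      rw [pow_succ']
      exact Dvd.intro _ rfl

/-- The limit of the power series truncations. -/
noncomputable def pLim (c : ℕ → ℤ) : ℂ⟦X⟧ :=
  PowerSeries.mk fun k => coeff k (pT ((List.range (k + 1)).map c))

lemma coeff_pT_eq (c : ℕ → ℤ) (hc : ∀ j, 2 ≤ c j) (k N : ℕ) (h : k + 1 ≤ N) :
    coeff k (pT ((List.range N).map c)) = coeff k (pLim c) := by
  obtain ⟨r, rfl⟩ : ∃ r, N = (k + 1) + r := ⟨N - (k + 1), by omega⟩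
  unfold pLim
  rw [coeff_mk, List.range_add, List.map_append]
  have h1 := dvd_pT_sub ((List.range (k + 1)).map c)
    (List.map c (List.map (fun x => k + 1 + x) (List.range r))) [] (by
      intro a ha
      obtain ⟨b, _, rfl⟩ := List.mem_map.mp ha
      exact hc b)
  rw [List.append_nil, List.length_map, List.length_range, PowerSeries.X_pow_dvd_iff] at h1
  have h2 := h1 k (by omega)
  rw [map_sub] at h2
  exact sub_eq_zero.mp h2

lemma isQLimit_pLim (c : ℕ → ℤ) (hc : ∀ j, 2 ≤ c j) :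
    IsQLimit c ((pLim c : ℂ⟦X⟧) : LaurentSeries ℂ) := by
  intro k
  refine eventually_atTop.mpr ⟨k.toNat + 1, fun N hN => ?_⟩
  rw [← coe_pT _ (by
      intro a ha
      obtain ⟨b, _, rfl⟩ := List.mem_map.mp ha
      exact hc b)]
  rw [PowerSeries.coeff_coe, PowerSeries.coeff_coe]
  split_ifs with h
  · rfl
  · have e : k.natAbs = k.toNat := by omega
    rw [e]
    exact coeff_pT_eq c hc _ _ hN

/-! ### The analytic model -/

/-- The truncations as functions of a complex variable. -/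
noncomputable def F : List ℤ → ℂ → ℂ
  | [], _ => 0
  | c :: l, z => ∑ i ∈ Finset.range c.toNat, z ^ i - z ^ (c - 1).toNat * (F l z)⁻¹

/-- The key estimate: iterating `w ↦ 1 + z w`. -/
lemma step_bound {g : ℝ} (z v : ℂ) (hz : ‖z‖ * (1 + g) ≤ g) (hv : ‖v‖ ≤ 1 + g) (n : ℕ) :
    ‖(∑ i ∈ Finset.range (n + 1), z ^ i + z ^ (n + 1) * v) - 1‖ ≤ g := by
  induction n with
  | zero =>
    simp only [zero_add, Finset.range_one, Finset.sum_singleton, pow_zero, pow_one,
      add_sub_cancel_left, norm_mul]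
    calc ‖z‖ * ‖v‖ ≤ ‖z‖ * (1 + g) := by gcongr
      _ ≤ g := hz
  | succ n ih =>
    have e : (∑ i ∈ Finset.range (n + 1 + 1), z ^ i + z ^ (n + 1 + 1) * v) - 1 =
        z * (∑ i ∈ Finset.range (n + 1), z ^ i + z ^ (n + 1) * v) := by
      rw [Finset.sum_range_succ', mul_add, Finset.mul_sum]
      simp only [pow_succ', pow_zero]
      ring
    rw [e, norm_mul]
    have h2 : ‖∑ i ∈ Finset.range (n + 1), z ^ i + z ^ (n + 1) * v‖ ≤ 1 + g := by
      calc ‖∑ i ∈ Finset.range (n + 1), z ^ i + z ^ (n + 1) * v‖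
          = ‖1 + ((∑ i ∈ Finset.range (n + 1), z ^ i + z ^ (n + 1) * v) - 1)‖ := by
            congr 1; ring
        _ ≤ ‖(1 : ℂ)‖ + ‖(∑ i ∈ Finset.range (n + 1), z ^ i + z ^ (n + 1) * v) - 1‖ :=
            norm_add_le _ _
        _ ≤ 1 + g := by rw [norm_one]; linarith
    calc ‖z‖ * ‖∑ i ∈ Finset.range (n + 1), z ^ i + z ^ (n + 1) * v‖ ≤ ‖z‖ * (1 + g) := by
          gcongr
      _ ≤ g := hz

/-- The number `1/φ = (√5 - 1)/2`. -/
noncomputable def g0 : ℝ := (Real.sqrt 5 - 1) / 2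

/-- The number `R_* = (3 - √5)/2`. -/
noncomputable def Rst : ℝ := (3 - Real.sqrt 5) / 2

lemma sqrt5 : 2 < Real.sqrt 5 ∧ Real.sqrt 5 < 3 ∧ Real.sqrt 5 * Real.sqrt 5 = 5 := by
  have h := Real.mul_self_sqrt (show (0 : ℝ) ≤ 5 by norm_num)
  have h0 := Real.sqrt_nonneg 5
  refine ⟨by nlinarith, by nlinarith, h⟩

lemma disc_bound (z : ℂ) (hz : ‖z‖ ≤ Rst) (l : List ℤ) (hl : ∀ c ∈ l, 2 ≤ c) (hne : l ≠ []) :
    ‖F l z - 1‖ ≤ g0 := by
  obtain ⟨h1, h2, h3⟩ := sqrt5
  have hg : 0 < g0 := by unfold g0; linarith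
  have hg1 : g0 < 1 := by unfold g0; linarith
  have hgg : g0 * (1 + g0) = 1 := by unfold g0; nlinarith
  have hzg : ‖z‖ * (1 + g0) ≤ g0 := by
    have h4 : Rst * (1 + g0) = g0 := by unfold Rst g0; nlinarith
    calc ‖z‖ * (1 + g0) ≤ Rst * (1 + g0) := by gcongr
      _ = g0 := h4
  induction l with
  | nil => exact absurd rfl hne
  | cons c l ih =>
    have hc : 2 ≤ c := hl c (by simp)
    obtain ⟨n, hn⟩ : ∃ n, (c - 1).toNat = n + 1 := ⟨(c - 1).toNat - 1, by omega⟩
    have hn2 : c.toNat = n + 2 := by omega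
    rw [F, hn, hn2]
    cases l with
    | nil =>
      have h5 := step_bound (g := g0) z 1 hzg (by rw [norm_one]; linarith) n
      rw [F, inv_zero, mul_zero, sub_zero, Finset.sum_range_succ]
      rw [mul_one] at h5
      exact h5
    | cons d l =>
      have h5 := ih (fun e he => hl e (by simp [he])) (by simp)
      set w := F (d :: l) z with hw
      have hw1 : 1 - g0 ≤ ‖w‖ := by
        have h6 : ‖(1 : ℂ)‖ ≤ ‖w‖ + ‖w - 1‖ := by
          calc ‖(1 : ℂ)‖ = ‖w - (w - 1)‖ := by congr 1; ring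
            _ ≤ ‖w‖ + ‖w - 1‖ := norm_sub_le _ _
        rw [norm_one] at h6
        linarith
      have hw0 : w ≠ 0 := by
        intro h0
        rw [h0, norm_zero] at hw1
        linarith
      have hv : ‖1 - w⁻¹‖ ≤ 1 + g0 := by
        have e : 1 - w⁻¹ = (w - 1) / w := by field_simp
        rw [e, norm_div, div_le_iff₀ (norm_pos_iff.mpr hw0)]
        nlinarith
      have h7 := step_bound (g := g0) z (1 - w⁻¹) hzg hv n
      have e2 : ∑ i ∈ Finset.range (n + 2), z ^ i - z ^ (n + 1) * w⁻¹ - 1 =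
          (∑ i ∈ Finset.range (n + 1), z ^ i + z ^ (n + 1) * (1 - w⁻¹)) - 1 := by
        rw [Finset.sum_range_succ]
        ring
      rw [e2]
      exact h7


/-- The Taylor series at `0` of a function. -/
noncomputable def taylor (f : ℂ → ℂ) : ℂ⟦X⟧ :=
  PowerSeries.mk fun k => iteratedDeriv k f 0 / (k.factorial : ℂ)

lemma taylor_mul {f g : ℂ → ℂ} (hf : AnalyticAt ℂ f 0) (hg : AnalyticAt ℂ g 0) :
    taylor (fun z => f z * g z) = taylor f * taylor g := by
  ext n
  rw [taylor, coeff_mk, PowerSeries.coeff_mul, Finset.Nat.sum_antidiagonal_eq_sum_range_succ_mk]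
  rw [iteratedDeriv_fun_mul hf.contDiffAt hg.contDiffAt, Finset.sum_div]
  apply Finset.sum_congr rfl
  intro i hi
  have hi' : i ≤ n := by
    have := Finset.mem_range.mp hi
    omega
  unfold taylor
  rw [coeff_mk, coeff_mk, Nat.cast_choose ℂ hi']
  have h1 : (n.factorial : ℂ) ≠ 0 := by exact_mod_cast Nat.factorial_ne_zero n
  have h2 : (i.factorial : ℂ) ≠ 0 := by exact_mod_cast Nat.factorial_ne_zero i
  have h3 : ((n - i).factorial : ℂ) ≠ 0 := by exact_mod_cast Nat.factorial_ne_zero (n - i)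
  field_simp

lemma taylor_sub {f g : ℂ → ℂ} (hf : AnalyticAt ℂ f 0) (hg : AnalyticAt ℂ g 0) :
    taylor (fun z => f z - g z) = taylor f - taylor g := by
  ext n
  unfold taylor
  rw [map_sub, coeff_mk, coeff_mk, coeff_mk, iteratedDeriv_fun_sub hf.contDiffAt hg.contDiffAt,
    sub_div]

lemma taylor_add {f g : ℂ → ℂ} (hf : AnalyticAt ℂ f 0) (hg : AnalyticAt ℂ g 0) :
    taylor (fun z => f z + g z) = taylor f + taylor g := by
  ext n
  unfold taylor
  rw [map_add, coeff_mk, coeff_mk, coeff_mk, iteratedDeriv_fun_add hf.contDiffAt hg.contDiffAt,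
    add_div]

lemma taylor_pow (m : ℕ) : taylor (fun z => z ^ m) = (X : ℂ⟦X⟧) ^ m := by
  ext n
  unfold taylor
  rw [coeff_mk, iteratedDeriv_fun_pow_zero, PowerSeries.coeff_X_pow]
  split_ifs with h
  · subst h
    have h1 : (n.factorial : ℂ) ≠ 0 := by exact_mod_cast Nat.factorial_ne_zero n
    exact div_self h1
  · simp

lemma taylor_geom (c : ℕ) : taylor (fun z => ∑ i ∈ Finset.range c, z ^ i) = geom c := by
  induction c with
  | zero =>
    ext n
    simp [taylor, geom]
  | succ c ih =>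
    have h1 : AnalyticAt ℂ (fun z : ℂ => ∑ i ∈ Finset.range c, z ^ i) 0 := by fun_prop
    have h2 : AnalyticAt ℂ (fun z : ℂ => z ^ c) 0 := by fun_prop
    simp only [Finset.sum_range_succ]
    rw [taylor_add h1 h2, ih, taylor_pow]
    unfold geom
    rw [Finset.sum_range_succ]

lemma taylor_congr {f g : ℂ → ℂ} (h : f =ᶠ[𝓝 0] g) : taylor f = taylor g := by
  ext n
  unfold taylor
  rw [coeff_mk, coeff_mk, Filter.EventuallyEq.iteratedDeriv_eq n h]

lemma taylor_one : taylor (fun _ => 1) = 1 := by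
  have h := taylor_pow 0
  simpa using h

lemma taylor_inv {f : ℂ → ℂ} (hf : AnalyticAt ℂ f 0) (h0 : f 0 ≠ 0) :
    taylor (fun z => (f z)⁻¹) = (taylor f)⁻¹ := by
  have h1 : AnalyticAt ℂ (fun z => (f z)⁻¹) 0 := hf.inv h0
  have h2 := taylor_mul hf h1
  have h3 : (fun z => f z * (f z)⁻¹) =ᶠ[𝓝 0] fun _ => 1 := by
    have h4 : ∀ᶠ z in 𝓝 0, f z ≠ 0 := hf.continuousAt.eventually_ne h0
    filter_upwards [h4] with z hz
    exact mul_inv_cancel₀ hz
  rw [taylor_congr h3, taylor_one] at h2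
  have hc : constantCoeff (taylor f) ≠ 0 := by
    rw [← PowerSeries.coeff_zero_eq_constantCoeff_apply]
    unfold taylor
    rw [coeff_mk]
    simpa using h0
  rw [PowerSeries.eq_inv_iff_mul_eq_one hc, mul_comm]
  exact h2.symm

lemma Rst_pos : 0 < Rst := by
  obtain ⟨h1, h2, h3⟩ := sqrt5
  unfold Rst
  linarith

lemma g0_lt_one : g0 < 1 := by
  obtain ⟨h1, h2, h3⟩ := sqrt5
  unfold g0
  linarith

lemma F_ne_zero (z : ℂ) (hz : ‖z‖ ≤ Rst) (l : List ℤ) (hl : ∀ c ∈ l, 2 ≤ c) (hne : l ≠ []) :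
    F l z ≠ 0 := by
  intro h
  have h1 := disc_bound z hz l hl hne
  rw [h, zero_sub, norm_neg, norm_one] at h1
  have := g0_lt_one
  linarith

lemma F_analyticAt (z : ℂ) (hz : ‖z‖ ≤ Rst) (l : List ℤ) (hl : ∀ c ∈ l, 2 ≤ c) :
    AnalyticAt ℂ (F l) z := by
  induction l with
  | nil =>
    have e : F [] = fun _ => 0 := by funext w; rw [F]
    rw [e]
    exact analyticAt_const
  | cons c l ih =>
    have hl' : ∀ d ∈ l, 2 ≤ d := fun d hd => hl d (by simp [hd])
    have ih' := ih hl'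
    have e : F (c :: l) = fun w =>
        ∑ i ∈ Finset.range c.toNat, w ^ i - w ^ (c - 1).toNat * (F l w)⁻¹ := by
      funext w; rw [F]
    rw [e]
    have h1 : AnalyticAt ℂ (fun w : ℂ => ∑ i ∈ Finset.range c.toNat, w ^ i) z := by fun_prop
    have h2 : AnalyticAt ℂ (fun w : ℂ => w ^ (c - 1).toNat) z := by fun_prop
    have h3 : AnalyticAt ℂ (fun w => (F l w)⁻¹) z := by
      cases l with
      | nil =>
        have e : (fun w => (F [] w)⁻¹) = fun _ => 0 := by funext w; rw [F, inv_zero]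
        rw [e]
        exact analyticAt_const
      | cons d l => exact ih'.inv (F_ne_zero z hz _ hl' (by simp))
    exact h1.sub (h2.mul h3)

lemma taylor_F (l : List ℤ) (hl : ∀ c ∈ l, 2 ≤ c) : taylor (F l) = pT l := by
  have hz : ‖(0 : ℂ)‖ ≤ Rst := by rw [norm_zero]; exact Rst_pos.le
  induction l with
  | nil =>
    ext n
    have e : F [] = fun _ => 0 := by funext w; rw [F]
    rw [e]
    simp [taylor, pT]
  | cons c l ih =>
    have hl' : ∀ d ∈ l, 2 ≤ d := fun d hd => hl d (by simp [hd])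
    have ih' := ih hl'
    have e : F (c :: l) = fun w =>
        ∑ i ∈ Finset.range c.toNat, w ^ i - w ^ (c - 1).toNat * (F l w)⁻¹ := by
      funext w; rw [F]
    have h1 : AnalyticAt ℂ (fun w : ℂ => ∑ i ∈ Finset.range c.toNat, w ^ i) 0 := by fun_prop
    have h2 : AnalyticAt ℂ (fun w : ℂ => w ^ (c - 1).toNat) 0 := by fun_prop
    have h4 : AnalyticAt ℂ (F l) 0 := F_analyticAt 0 hz l hl'
    cases l with
    | nil =>
      have e2 : F [c] = fun w => ∑ i ∈ Finset.range c.toNat, w ^ i := by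
        funext w; rw [F, F, inv_zero, mul_zero, sub_zero]
      rw [e2, taylor_geom, pT, pT]
      simp
    | cons d l =>
      have h5 : F (d :: l) 0 ≠ 0 := F_ne_zero 0 hz _ hl' (by simp)
      have h3 : AnalyticAt ℂ (fun w => (F (d :: l) w)⁻¹) 0 := h4.inv h5
      have h23 : AnalyticAt ℂ (fun w => w ^ (c - 1).toNat * (F (d :: l) w)⁻¹) 0 := h2.mul h3
      rw [e, taylor_sub h1 h23, taylor_mul h2 h3, taylor_geom, taylor_pow,
        taylor_inv h4 h5, ih', ← pT]

lemma coeff_bound (l : List ℤ) (hl : ∀ c ∈ l, 2 ≤ c) (k : ℕ) :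
    ‖coeff k (pT l)‖ * Rst ^ k ≤ 2 := by
  have hR := Rst_pos
  rcases eq_or_ne l [] with rfl | hne
  · rw [pT, map_zero, norm_zero, zero_mul]
    norm_num
  rw [← taylor_F l hl]
  unfold taylor
  rw [coeff_mk]
  have hd : DiffContOnCl ℂ (F l) (Metric.ball 0 Rst) := by
    apply DifferentiableOn.diffContOnCl
    intro z hz
    have hz2 : z ∈ Metric.closedBall (0 : ℂ) Rst := Metric.closure_ball_subset_closedBall hz
    rw [mem_closedBall_zero_iff] at hz2
    exact (F_analyticAt z hz2 l hl).differentiableAt.differentiableWithinAt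
  have hb : ∀ z ∈ Metric.sphere (0 : ℂ) Rst, ‖F l z‖ ≤ 2 := by
    intro z hz
    rw [mem_sphere_zero_iff_norm] at hz
    have h1 := disc_bound z hz.le l hl hne
    have h2 := g0_lt_one
    calc ‖F l z‖ = ‖(F l z - 1) + 1‖ := by congr 1; ring
      _ ≤ ‖F l z - 1‖ + ‖(1 : ℂ)‖ := norm_add_le _ _
      _ ≤ 2 := by rw [norm_one]; linarith
  have h := Complex.norm_iteratedDeriv_le_of_forall_mem_sphere_norm_le k hR hd hb
  rw [norm_div, Complex.norm_natCast]
  have hk : (0 : ℝ) < k.factorial := by exact_mod_cast Nat.factorial_pos k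
  have hRk : 0 < Rst ^ k := pow_pos hR k
  rw [div_mul_eq_mul_div, div_le_iff₀ hk]
  rw [le_div_iff₀ hRk] at h
  linarith

lemma le_radius {f : LaurentSeries ℂ} {x : ℝ} (hf : IsQReal x f) :
    ENNReal.ofReal Rst ≤ radius f := by
  obtain ⟨m, hm, hf⟩ := hf
  have hd : ∀ j, 2 ≤ digit (x + m) j := digit_ge_two hm
  have h1 := isQLimit_unique hf (isQLimit_pLim _ hd)
  have hR := Rst_pos
  have hcoeff : ∀ k : ℕ, f.coeff (k : ℤ) = coeff (k + m) (pLim (digit (x + m))) := by
    intro k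
    have h2 := congrArg (fun g : LaurentSeries ℂ => g.coeff ((k + m : ℕ) : ℤ)) h1
    rw [HahnSeries.coeff_add, coeff_q_pow_mul, ← coe_geom, PowerSeries.coeff_coe,
      PowerSeries.coeff_coe] at h2
    have e1 : ((k + m : ℕ) : ℤ) - m = k := by push_cast; ring
    have e2 : ¬ (((k + m : ℕ) : ℤ) < 0) := by omega
    have e3 : ((k + m : ℕ) : ℤ).natAbs = k + m := by omega
    have e4 : coeff (k + m) (geom m) = 0 := by
      unfold geom
      rw [map_sum]
      apply Finset.sum_eq_zero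
      intro i hi
      rw [Finset.mem_range] at hi
      rw [PowerSeries.coeff_X_pow, if_neg (by omega)]
    rw [e1, if_neg e2, if_neg e2, e3, e4, add_zero] at h2
    exact h2
  unfold radius
  have hbound : ∀ n : ℕ, ‖FormalMultilinearSeries.ofScalars ℂ (fun k : ℕ => f.coeff (k : ℤ)) n‖ *
      (Rst.toNNReal : ℝ) ^ n ≤ 2 / Rst ^ m := by
    intro n
    rw [FormalMultilinearSeries.ofScalars_norm, Real.coe_toNNReal _ hR.le, hcoeff,
      le_div_iff₀ (pow_pos hR m), mul_assoc, ← pow_add]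
    rw [← coeff_pT_eq _ hd (n + m) (n + m + 1) le_rfl]
    apply coeff_bound
    intro a ha
    obtain ⟨b, _, rfl⟩ := List.mem_map.mp ha
    exact hd b
  exact FormalMultilinearSeries.le_radius_of_bound _ _ hbound

lemma exists_isQReal (x : ℝ) : ∃ f, IsQReal x f := by
  obtain ⟨m, hm⟩ := exists_nat_ge (1 - x)
  have hm' : 1 ≤ x + m := by linarith
  have hd : ∀ j, 2 ≤ digit (x + m) j := digit_ge_two hm'
  refine ⟨(q ^ m)⁻¹ * (((pLim (digit (x + m)) : ℂ⟦X⟧) : LaurentSeries ℂ) - qInt m), m, hm', ?_⟩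
  have e : q ^ m * ((q ^ m)⁻¹ * (((pLim (digit (x + m)) : ℂ⟦X⟧) : LaurentSeries ℂ) - qInt m)) +
      qInt m = ((pLim (digit (x + m)) : ℂ⟦X⟧) : LaurentSeries ℂ) := by
    rw [mul_inv_cancel_left₀ (pow_ne_zero _ q_ne_zero)]
    ring
  rw [e]
  exact isQLimit_pLim _ hd

lemma isQReal_sub_one {x : ℝ} {f : LaurentSeries ℂ} (hf : IsQReal x f) :
    IsQReal (x - 1) (q⁻¹ * (f - 1)) := by
  obtain ⟨m, hm, hf⟩ := hf
  refine ⟨m + 1, ?_, ?_⟩
  · push_cast
    linarith
  · have e1 : x - 1 + ((m + 1 : ℕ) : ℝ) = x + m := by push_cast; ring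
    have e2 : q ^ (m + 1) * (q⁻¹ * (f - 1)) + qInt ((m + 1 : ℕ) : ℤ) = q ^ m * f + qInt m := by
      have e3 : ((m + 1 : ℕ) : ℤ) = (m : ℤ) + 1 := by push_cast; ring
      have e4 : qInt ((m : ℤ) + 1) = qInt m + q ^ m := by
        unfold qInt
        have h := one_sub_q_ne_zero
        field_simp
        rw [zpow_add_one₀ q_ne_zero, zpow_natCast]
        ring
      rw [e3, e4, pow_succ]
      have h := q_ne_zero
      field_simp
      ring
    rw [e1, e2]
    exact hf

/-- **Every real number `x` has a well-defined `q`-deformation `[x]_q`, and the radius of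
convergence of this series is at least `R_* = (3 - √5)/2`.** The middle clause records that the
definition satisfies the shift rule `[x - 1]_q = q⁻¹ ([x]_q - 1)`. -/
theorem result (x : ℝ) :
    (∃! f : LaurentSeries ℂ, IsQReal x f) ∧
    (∀ f : LaurentSeries ℂ, IsQReal x f → IsQReal (x - 1) (q⁻¹ * (f - 1))) ∧
    (∀ f : LaurentSeries ℂ, IsQReal x f →
      ENNReal.ofReal ((3 - Real.sqrt 5) / 2) ≤ radius f) := by
  refine ⟨?_, fun f hf => isQReal_sub_one hf, fun f hf => le_radius hf⟩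
  obtain ⟨f, hf⟩ := exists_isQReal x
  exact ⟨f, hf, fun g hg => isQReal_unique hg hf⟩

end Pool.Agent.Results.MP_b13893_an.RadiusBound
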